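import Mathlib

/-!
# The generalized non-coprime graph determines the vertices coming from the subgroup

Every isomorphism between generalized non-coprime graphs of finite groups maps the vertices of the
first subgroup onto the vertices of the second one.
-/

set_option autoImplicit false

namespace Pool.Agent.Results.MP_acde3d_al.RecoverSubgroup

/-- The generalized non-coprime graph of a group `G` and a subgroup `H`: the vertices are the
nonidentity elements of `G`, and distinct vertices `a`, `b` are adjacent when the orders of `a` and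
`b` are not coprime and at least one of `a`, `b` lies in `H`. -/
def nonCoprimeGraph (G : Type*) [Group G] (H : Subgroup G) : SimpleGraph {x : G // x ≠ 1} where
  Adj a b := a ≠ b ∧ Nat.gcd (orderOf (a : G)) (orderOf (b : G)) ≠ 1 ∧ ((a : G) ∈ H ∨ (b : G) ∈ H)
  symm := ⟨fun a b h => ⟨h.1.symm, by rw [Nat.gcd_comm]; exact h.2.1, h.2.2.symm⟩⟩
  loopless := ⟨fun a h => h.1 rfl⟩

section basic

variable {G : Type*} [Group G] {H : Subgroup G}

theorem adj_iff {a b : {x : G // x ≠ 1}} : (nonCoprimeGraph G H).Adj a b ↔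
    a ≠ b ∧ Nat.gcd (orderOf (a : G)) (orderOf (b : G)) ≠ 1 ∧ ((a : G) ∈ H ∨ (b : G) ∈ H) := Iff.rfl

/-- Adjacency to a vertex outside `H`. -/
theorem adj_out {a b : {x : G // x ≠ 1}} (ha : (a : G) ∉ H) : (nonCoprimeGraph G H).Adj a b ↔
    Nat.gcd (orderOf (a : G)) (orderOf (b : G)) ≠ 1 ∧ (b : G) ∈ H := by
  rw [adj_iff]
  constructor
  · rintro ⟨_, h2, h3⟩
    exact ⟨h2, h3.resolve_left ha⟩
  · rintro ⟨h2, h3⟩
    refine ⟨?_, h2, Or.inr h3⟩
    rintro rfl
    exact ha h3

/-- Adjacency to a vertex of `H`. -/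
theorem adj_in {a b : {x : G // x ≠ 1}} (ha : (a : G) ∈ H) : (nonCoprimeGraph G H).Adj a b ↔
    a ≠ b ∧ Nat.gcd (orderOf (a : G)) (orderOf (b : G)) ≠ 1 := by
  rw [adj_iff]
  tauto

theorem orderOf_ne_one (a : {x : G // x ≠ 1}) : orderOf (a : G) ≠ 1 := by
  intro h
  exact a.2 (orderOf_eq_one_iff.1 h)

/-- The inverse of a vertex. -/
def vinv (a : {x : G // x ≠ 1}) : {x : G // x ≠ 1} := ⟨(a : G)⁻¹, inv_ne_one.2 a.2⟩

theorem orderOf_vinv (a : {x : G // x ≠ 1}) : orderOf ((vinv a : {x : G // x ≠ 1}) : G) =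
    orderOf (a : G) := orderOf_inv _

theorem vinv_ne {a : {x : G // x ≠ 1}} (h : orderOf (a : G) ≠ 2) : a ≠ vinv a := by
  intro h1
  apply h
  have h2 : (a : G) = (a : G)⁻¹ := congrArg Subtype.val h1
  refine orderOf_eq_prime ?_ a.2
  rw [pow_two]
  nth_rewrite 2 [h2]
  exact mul_inv_cancel _

theorem adj_vinv {a : {x : G // x ≠ 1}} (ha : (a : G) ∈ H) (h : orderOf (a : G) ≠ 2) :
    (nonCoprimeGraph G H).Adj a (vinv a) := by
  rw [adj_in ha]
  refine ⟨vinv_ne h, ?_⟩
  rw [orderOf_vinv, Nat.gcd_self]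
  exact orderOf_ne_one a

theorem gcd_two_ne_one {n : ℕ} : Nat.gcd 2 n ≠ 1 ↔ 2 ∣ n := by
  rw [ne_eq, ← Nat.Coprime, Nat.prime_two.coprime_iff_not_dvd, not_not]

theorem even_of_gcd {m n : ℕ} (hm : 2 ∣ m) (hn : 2 ∣ n) : Nat.gcd m n ≠ 1 := by
  intro h
  have := Nat.dvd_gcd hm hn
  rw [h] at this
  omega

/-- If an involution `y` outside `H` is the only element of even order outside `H`, then `H` has
no element of even order. -/
theorem lemma_D [Finite G] {y u : G} (hy : y ∉ H) (hy2 : orderOf y = 2) (hu : u ∈ H)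
    (hu2 : 2 ∣ orderOf u) (hall : ∀ b : G, 2 ∣ orderOf b → b ≠ y → b ∈ H) : False := by
  obtain ⟨k, hk⟩ := hu2
  have hpos : 0 < orderOf u := orderOf_pos u
  have hk0 : k ≠ 0 := by rintro rfl; omega
  set t : G := u ^ k with ht
  have ht2 : orderOf t = 2 := by
    rw [ht, orderOf_pow_of_dvd hk0 ⟨2, by rw [hk]; ring⟩, hk]
    exact Nat.mul_div_cancel _ (Nat.pos_of_ne_zero hk0)
  have htH : t ∈ H := H.pow_mem hu k
  have htt : t * t = 1 := by rw [← pow_two, ← ht2]; exact pow_orderOf_eq_one t
  have hyy : y * y = 1 := by rw [← pow_two, ← hy2]; exact pow_orderOf_eq_one y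
  have hz : orderOf (t * y * t⁻¹) = 2 := by
    rw [← hy2]
    exact orderOf_injective (MulAut.conj t).toMonoidHom (MulAut.conj t).injective y
  have hzy : t * y * t⁻¹ = y := by
    by_contra hne
    have h1 := hall _ (by rw [hz]) hne
    apply hy
    have h2 := H.mul_mem (H.mul_mem (H.inv_mem htH) h1) htH
    have h3 : t⁻¹ * (t * y * t⁻¹) * t = y := by group
    rwa [h3] at h2
  have hcomm : t * y = y * t := by
    rw [mul_inv_eq_iff_eq_mul] at hzy
    exact hzy
  have hty : (t * y) * (t * y) = 1 := by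
    calc (t * y) * (t * y) = t * (y * t) * y := by group
      _ = t * (t * y) * y := by rw [hcomm]
      _ = (t * t) * (y * y) := by group
      _ = 1 := by rw [htt, hyy, one_mul]
  have hty1 : t * y ≠ 1 := by
    intro h
    apply hy
    have : y = t⁻¹ := eq_inv_of_mul_eq_one_right h
    rw [this]
    exact H.inv_mem htH
  have hty2 : orderOf (t * y) = 2 := orderOf_eq_prime (by rw [pow_two]; exact hty) hty1
  have htyy : t * y = y := by
    by_contra hne
    have h1 := hall _ (by rw [hty2]) hne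
    apply hy
    have h2 := H.mul_mem (H.inv_mem htH) h1
    rwa [inv_mul_cancel_left] at h2
  have ht1 : t = 1 := by
    have := mul_eq_right.1 htyy
    exact this
  rw [ht1, orderOf_one] at ht2
  omega

/-- In a finite group with a unique involution `x`, an element `y ≠ 1` of odd order gives
the element `x * y` of even order. -/
theorem unique_involution [Finite G] {x y : G} (hx : orderOf x = 2)
    (huniq : ∀ b : G, orderOf b = 2 → b = x) (hy : ¬ 2 ∣ orderOf y) :
    2 ∣ orderOf (x * y) := by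
  have hcomm : Commute x y := by
    have h1 : orderOf (y * x * y⁻¹) = 2 := by
      rw [← hx]
      exact orderOf_injective (MulAut.conj y).toMonoidHom (MulAut.conj y).injective x
    have h2 := huniq _ h1
    rw [mul_inv_eq_iff_eq_mul] at h2
    exact h2.symm
  have hcop : (orderOf x).Coprime (orderOf y) := by
    rw [hx]
    exact (Nat.prime_two.coprime_iff_not_dvd).2 hy
  rw [hcomm.orderOf_mul_eq_mul_orderOf_of_coprime hcop, hx]
  exact dvd_mul_right _ _

end basic

section main

variable {G G' : Type*} [Group G] [Group G'] [Finite G] [Finite G']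
  {H : Subgroup G} {H' : Subgroup G'}

omit [Finite G'] in
/-- A vertex of `H` that is sent outside `H'` is sent to an involution. -/
theorem order_image (φ : nonCoprimeGraph G H ≃g nonCoprimeGraph G' H') {x : {x : G // x ≠ 1}}
    (hx : (x : G) ∈ H) (hx' : ((φ x : {x : G' // x ≠ 1}) : G') ∉ H') :
    orderOf ((φ x : {x : G' // x ≠ 1}) : G') = 2 := by
  by_contra hne
  set y' : {x : G' // x ≠ 1} := vinv (φ x) with hy'def
  have hy'ne : φ x ≠ y' := vinv_ne hne
  have hy'H : (y' : G') ∉ H' := fun h => hx' (by simpa [hy'def, vinv] using H'.inv_mem h)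
  set y : {x : G // x ≠ 1} := φ.symm y' with hydef
  have hφy : φ y = y' := φ.apply_symm_apply y'
  have hadj : ∀ b, (nonCoprimeGraph G H).Adj x b ↔ (nonCoprimeGraph G H).Adj y b := by
    intro b
    rw [← φ.map_adj_iff, ← φ.map_adj_iff (v := y), hφy, adj_out hx', adj_out hy'H, hy'def,
      orderOf_vinv]
  have hxy : x ≠ y := by
    intro h
    apply hy'ne
    rw [← hφy, ← h]
  have hnadj : ¬ (nonCoprimeGraph G H).Adj x y := by
    rw [← φ.map_adj_iff, hφy, adj_out hx']
    exact fun h => hy'H h.2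
  have hcop : Nat.gcd (orderOf (x : G)) (orderOf (y : G)) = 1 := by
    by_contra h
    exact hnadj ((adj_in hx).2 ⟨hxy, h⟩)
  have hx2 : orderOf (x : G) = 2 := by
    by_contra h
    have h1 := adj_vinv hx h
    rw [hadj, adj_iff, orderOf_vinv, Nat.gcd_comm] at h1
    exact h1.2.1 hcop
  have hyodd : ¬ 2 ∣ orderOf (y : G) := by
    rw [hx2] at hcop
    exact (Nat.prime_two.coprime_iff_not_dvd).1 hcop
  have hyH : (y : G) ∉ H := by
    intro hyH
    have h1 := adj_vinv hyH (by intro h; rw [h] at hyodd; exact hyodd dvd_rfl)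
    rw [← hadj, adj_iff, orderOf_vinv] at h1
    exact h1.2.1 hcop
  have hall : ∀ b : {x : G // x ≠ 1}, 2 ∣ orderOf (b : G) → b ≠ x →
      (b : G) ∈ H ∧ Nat.gcd (orderOf (y : G)) (orderOf (b : G)) ≠ 1 := by
    intro b hb hbx
    have h1 : (nonCoprimeGraph G H).Adj x b := by
      rw [adj_in hx, hx2]
      exact ⟨hbx.symm, gcd_two_ne_one.2 hb⟩
    rw [hadj, adj_out hyH] at h1
    exact ⟨h1.2, h1.1⟩
  have huniq : ∀ b : G, orderOf b = 2 → b = x := by
    intro b hb
    by_contra hbx
    have hb1 : b ≠ 1 := by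
      rintro rfl
      rw [orderOf_one] at hb
      omega
    have h1 := (hall ⟨b, hb1⟩ (by simp [hb]) (fun h => hbx (congrArg Subtype.val h))).2
    simp only [hb] at h1
    rw [Nat.gcd_comm, gcd_two_ne_one] at h1
    exact hyodd h1
  have h2 := unique_involution hx2 huniq hyodd
  have hxy1 : (x : G) * y ≠ 1 := by
    intro h
    rw [h, orderOf_one] at h2
    omega
  have hxyx : (x : G) * y ≠ x := by
    intro h
    exact y.2 (mul_eq_left.1 h)
  have h3 := (hall ⟨_, hxy1⟩ h2 (fun h => hxyx (congrArg Subtype.val h))).1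
  apply hyH
  have h4 := H.mul_mem (H.inv_mem hx) h3
  simpa using h4

omit [Finite G'] in
/-- At most one vertex of `H` is sent outside `H'`. -/
theorem unique_image (φ : nonCoprimeGraph G H ≃g nonCoprimeGraph G' H')
    {x y : {x : G // x ≠ 1}}
    (hx : (x : G) ∈ H) (hx' : ((φ x : {x : G' // x ≠ 1}) : G') ∉ H')
    (hy : (y : G) ∈ H) (hy' : ((φ y : {x : G' // x ≠ 1}) : G') ∉ H') : x = y := by
  by_contra hxy
  have hadj : ∀ b, (nonCoprimeGraph G H).Adj x b ↔ (nonCoprimeGraph G H).Adj y b := by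
    intro b
    rw [← φ.map_adj_iff, ← φ.map_adj_iff (v := y), adj_out hx', adj_out hy',
      order_image φ hx hx', order_image φ hy hy']
  have hnadj : ¬ (nonCoprimeGraph G H).Adj x y := by
    rw [← φ.map_adj_iff, adj_out hx']
    exact fun h => hy' h.2
  have hcop : Nat.gcd (orderOf (x : G)) (orderOf (y : G)) = 1 := by
    by_contra h
    exact hnadj ((adj_in hx).2 ⟨hxy, h⟩)
  have hx2 : orderOf (x : G) = 2 := by
    by_contra h
    have h1 := adj_vinv hx h
    rw [hadj, adj_iff, orderOf_vinv, Nat.gcd_comm] at h1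
    exact h1.2.1 hcop
  have hy2 : orderOf (y : G) = 2 := by
    by_contra h
    have h1 := adj_vinv hy h
    rw [← hadj, adj_iff, orderOf_vinv] at h1
    exact h1.2.1 hcop
  rw [hx2, hy2] at hcop
  norm_num at hcop

/-- A vertex of `H` that is sent outside `H'` is an involution. -/
theorem order_source (φ : nonCoprimeGraph G H ≃g nonCoprimeGraph G' H') {x : {x : G // x ≠ 1}}
    (hx : (x : G) ∈ H) (hx' : ((φ x : {x : G' // x ≠ 1}) : G') ∉ H') :
    orderOf (x : G) = 2 := by
  by_contra hne
  have hord := order_image φ hx hx'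
  have h1 := adj_vinv hx hne
  have h2 : (nonCoprimeGraph G' H').Adj (φ x) (φ (vinv x)) := φ.map_adj_iff.2 h1
  rw [adj_out hx', hord, gcd_two_ne_one] at h2
  refine lemma_D hx' hord h2.2 h2.1 ?_
  intro b hb hbx
  have hb1 : b ≠ 1 := by
    rintro rfl
    rw [orderOf_one] at hb
    omega
  by_cases hbu : (⟨b, hb1⟩ : {x : G' // x ≠ 1}) = φ (vinv x)
  · have : b = ((φ (vinv x) : {x : G' // x ≠ 1}) : G') := congrArg Subtype.val hbu
    rw [this]
    exact h2.2
  · have h3 : (nonCoprimeGraph G' H').Adj (φ (vinv x)) ⟨b, hb1⟩ := by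
      rw [adj_in h2.2]
      exact ⟨fun h => hbu h.symm, even_of_gcd h2.1 hb⟩
    set c := φ.symm ⟨b, hb1⟩ with hc
    have hφc : φ c = ⟨b, hb1⟩ := φ.apply_symm_apply _
    rw [← hφc, φ.map_adj_iff, adj_iff, orderOf_vinv] at h3
    have hxc : x ≠ c := by
      intro h
      apply hbx
      rw [h, hφc]
    have h4 : (nonCoprimeGraph G H).Adj x c := (adj_in hx).2 ⟨hxc, h3.2.1⟩
    rw [← φ.map_adj_iff, hφc, adj_out hx'] at h4
    exact h4.2

theorem ncard_subgroup (K : Subgroup G) :
    Set.ncard {v : {x : G // x ≠ 1} | (v : G) ∈ K} + 1 = Nat.card K := by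
  have h1 : Set.ncard {v : {x : G // x ≠ 1} | (v : G) ∈ K} = Set.ncard ((K : Set G) \ {1}) := by
    refine Set.ncard_congr (fun v _ => (v : G)) ?_ ?_ ?_
    · intro a ha
      exact ⟨ha, a.2⟩
    · intro a b _ _ h
      exact Subtype.ext h
    · intro b hb
      exact ⟨⟨b, hb.2⟩, hb.1, rfl⟩
  rw [h1, Set.ncard_sdiff_singleton_add_one K.one_mem (Set.toFinite _)]
  exact (Nat.card_coe_set_eq (K : Set G)).symm

/-- No vertex of `H` is sent outside `H'`. -/
theorem mem_of_mem (hH' : H' ≠ ⊥) (φ : nonCoprimeGraph G H ≃g nonCoprimeGraph G' H')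
    {x : {x : G // x ≠ 1}} (hx : (x : G) ∈ H) : ((φ x : {x : G' // x ≠ 1}) : G') ∈ H' := by
  by_contra hx'
  have hx2 := order_source φ hx hx'
  have hx2' := order_image φ hx hx'
  by_cases hex : ∃ y : {x : G // x ≠ 1}, (y : G) ∉ H ∧ ((φ y : {x : G' // x ≠ 1}) : G') ∈ H'
  · obtain ⟨y, hy, hy'⟩ := hex
    have hys : ((φ.symm (φ y) : {x : G // x ≠ 1}) : G) ∉ H := by
      rwa [φ.symm_apply_apply]
    have hy2 : orderOf (y : G) = 2 := by
      have := order_image φ.symm hy' hys
      rwa [φ.symm_apply_apply] at this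
    refine lemma_D hy hy2 hx (by rw [hx2]) ?_
    intro b hb hby
    have hb1 : b ≠ 1 := by
      rintro rfl
      rw [orderOf_one] at hb
      omega
    by_contra hbH
    have hbx : x ≠ ⟨b, hb1⟩ := by
      rintro rfl
      exact hbH hx
    have h1 : (nonCoprimeGraph G H).Adj x ⟨b, hb1⟩ := by
      rw [adj_in hx, hx2]
      exact ⟨hbx, gcd_two_ne_one.2 hb⟩
    rw [← φ.map_adj_iff, adj_out hx'] at h1
    have hbs : ((φ.symm (φ ⟨b, hb1⟩) : {x : G // x ≠ 1}) : G) ∉ H := by
      rwa [φ.symm_apply_apply]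
    have h2 := unique_image φ.symm hy' hys h1.2 hbs
    have h3 := φ.injective h2
    apply hby
    rw [h3]
  · push Not at hex
    set T : Set {x : G // x ≠ 1} := {v | (v : G) ∈ H} with hT
    set T' : Set {x : G // x ≠ 1} := {v | ((φ v : {x : G' // x ≠ 1}) : G') ∈ H'} with hT'
    have hTT' : T = insert x T' := by
      ext v
      simp only [hT, hT', Set.mem_ofPred_eq, Set.mem_insert_iff]
      constructor
      · intro hv
        by_cases hv' : ((φ v : {x : G' // x ≠ 1}) : G') ∈ H'
        · exact Or.inr hv'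
        · exact Or.inl (unique_image φ hv hv' hx hx')
      · rintro (rfl | hv)
        · exact hx
        · by_contra hvH
          exact hex v hvH hv
    have hc1 : Set.ncard T + 1 = Nat.card H := ncard_subgroup H
    have hc2 : Set.ncard T' + 1 = Nat.card H' := by
      rw [← ncard_subgroup H']
      congr 1
      refine Set.ncard_congr (fun v _ => φ v) ?_ ?_ ?_
      · intro a ha
        exact ha
      · intro a b _ _ h
        exact φ.injective h
      · intro b hb
        refine ⟨φ.symm b, ?_, φ.apply_symm_apply b⟩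
        simp only [hT', Set.mem_ofPred_eq]
        rw [φ.apply_symm_apply]
        exact hb
    have hc3 : Set.ncard T = Set.ncard T' + 1 := by
      rw [hTT']
      exact Set.ncard_insert_of_notMem hx' (Set.toFinite _)
    have hc4 : 2 ∣ Nat.card H := by
      rw [← hx2]
      exact Subgroup.orderOf_dvd_natCard H hx
    have hc5 : ¬ 2 ∣ Nat.card H' := by omega
    -- `x` is isolated
    have hiso : ∀ b, ¬ (nonCoprimeGraph G H).Adj x b := by
      intro b hb
      rw [← φ.map_adj_iff, adj_out hx', hx2', gcd_two_ne_one] at hb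
      exact hc5 (hb.1.trans (Subgroup.orderOf_dvd_natCard H' hb.2))
    have hev : ∀ b : G, 2 ∣ orderOf b → b = x := by
      intro b hb
      by_contra hbx
      have hb1 : b ≠ 1 := by
        rintro rfl
        rw [orderOf_one] at hb
        omega
      refine hiso ⟨b, hb1⟩ ?_
      rw [adj_in hx, hx2]
      exact ⟨fun h => hbx (congrArg Subtype.val h).symm, gcd_two_ne_one.2 hb⟩
    have hall : ∀ y : {x : G // x ≠ 1}, y = x := by
      intro y
      by_contra hyx
      have hyodd : ¬ 2 ∣ orderOf (y : G) := fun h => hyx (Subtype.ext (hev _ h))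
      have h2 := unique_involution hx2 (fun b hb => hev b (by rw [hb])) hyodd
      have h3 := hev _ h2
      exact y.2 (mul_eq_left.1 h3)
    obtain ⟨h, hh, hh1⟩ : ∃ h : G', h ∈ H' ∧ h ≠ 1 := by
      obtain ⟨a, ha⟩ := Subgroup.ne_bot_iff_exists_ne_one.1 hH'
      exact ⟨(a : G'), a.2, fun h => ha (Subtype.ext h)⟩
    have h4 := hall (φ.symm ⟨h, hh1⟩)
    apply hx'
    rw [← h4, φ.apply_symm_apply]
    exact hh

/-- **Theorem.** Every isomorphism between the generalized non-coprime graphs of `(G, H)` and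
`(G', H')` maps the set of vertices coming from `H` onto the set of vertices coming from `H'`. -/
theorem result {G G' : Type*} [Group G] [Group G'] [Finite G] [Finite G']
    (H : Subgroup G) (H' : Subgroup G') (hH : H ≠ ⊥) (hH' : H' ≠ ⊥)
    (φ : nonCoprimeGraph G H ≃g nonCoprimeGraph G' H') :
    φ '' {v : {x : G // x ≠ 1} | (v : G) ∈ H} = {v : {x : G' // x ≠ 1} | (v : G') ∈ H'} := by
  ext v
  constructor
  · rintro ⟨w, hw, rfl⟩
    exact mem_of_mem hH' φ hw
  · intro hv
    refine ⟨φ.symm v, ?_, φ.apply_symm_apply v⟩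
    exact mem_of_mem hH φ.symm hv

end main

end Pool.Agent.Results.MP_acde3d_al.RecoverSubgroup
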